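import Pool.Agent.H72.S8.Sta
import Pool.Agent.H72.S9.Fin

/-!
# MP_d2121a_nt : Artin's holomorphy conjecture for the extensions `L / K` of bounded degree below an extension `L / F` with Galois
group `S_n` or `A_n`

`L` is the splitting field over `F` of a polynomial `f` of degree `n` with `|Gal(L/F)| ≥ n! / 2`, and `K` is a field between `F` and
`L` with `[L : K] ≤ m`.  The constant `C` depends only on `m`, and `n ≥ C`.

* `S8.PartA`, first statement.  `SmallBases f K C`: for every set `A` of roots of `f` and every set `R` of less than `C` elements there
  is a set `B` of at most `max(|A|, 4)` roots of `f` outside of `R` with `A ⊆ K(B)`.  Then `AllArtin K`: for all complex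
  representations `ρ` of `Gal(L/K)`, Artin's conjecture holds for `L(s, ρ)`, and a power of `L(s, ρ)` is a product of Hecke
  L-functions.  The hypothesis holds if every root of `f` is in `K(c)` for at least `C` roots `c` (`smallBases_of_rootsBelow`), and
  if outside of every set of less than `C` roots there are four roots which generate `L` over `K` (`smallBases_of_four`).
* Second statement.  `ManyOutside f K C`: for every field `E ≠ L` between `K` and `L` which is normal over `K`, at least `C` roots of
  `f` are not in `E`.  Then `AllArtin K` holds if every faithful action of the group `Gal(L/K)` on a finite set has a base of at most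
  four points (`BaseFour`), in particular if no chain of fields between `K` and `L` has more than five members, for example if
  `[L : K]` is a product of at most four primes (`krull_le_of_omega`).
* Third statement.  If `ManyOutside f K C`, Artin's conjecture holds for a single representation `ρ` of dimension at most `m` if `ρ`
  contains the trivial character, and the sign of the action on the roots, on `Gal(L/K(T))` for many disjoint sets `T` of at most
  four roots (`OccursOnFour f ρ C`).
* Fourth statement.  If every root of `f` is in `K(c)` for at least `C` roots `c` (`RootsBelow f K C`) the zeros of `L(s, ρ')` are
  zeros of `(s - 1) ^ d L(s, ρ)` for all `ρ`, `ρ'` such that every homomorphism from `Gal(L/K)` to `{1, -1}` occurs in `ρ` on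
  `Gal(L/K(S))`, `S` a set of roots, if it does in `ρ'`, and `ρ'` has no invariants.
* `S9.PartB`.  The groups `A_5` and `S_5`: for an absolute constant `C` and `n ≥ C`, Artin's conjecture holds for all representations of
  `Gal(L/K)` for every field `K` with `Gal(L/K)` isomorphic to `A_5` (without any further condition), and for every field `K` with
  `Gal(L/K)` isomorphic to `S_5` if at least `C` roots of `f` have degree at least three over `K`.
* `S8.PartC`.  `SmallBases` and `RootsBelow` hold for one hundred percent of the fields `K` with a given group `Gal(L/K)`, as `n`
  tends to infinity.

No hypothesis is made anywhere: the theorems of Artin, Brauer and Hecke used are proved in `H31/CF/Main.lean`.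
-/

open Pool.Agent.H72

namespace Pool.Agent.Results.MP_d2121a_nt.BoundedDegree

theorem result : S8.PartA ∧ S9.PartB ∧ S8.PartC := ⟨S8.all_parts.1, S9.partB, S8.all_parts.2.2⟩

end Pool.Agent.Results.MP_d2121a_nt.BoundedDegree
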