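import Pool.Agent.H28.QZ.All

/-!
# MP_d2121a_nt : Artin's holomorphy conjecture for the extensions `L / K` below an extension `L / F` with Galois group `S_n` or
`A_n`; products and quotients of Artin L-functions over different fields `K`

All notions are defined in `Pool/Agent/H28/QZ/Sta.lean`.  `L / F` is a Galois extension of number fields, `K` runs through
intermediate fields, `GoodFamily t δ 𝒦` is a statement on all complex representations of all groups `Gal(L/K)`, `K` in `𝒦`:
Artin's conjecture, products of Hecke L-functions for all quotients which are not excluded by degree, pole or sign, zeros.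

No hypothesis is made anywhere: the theorems of Artin, Brauer and Hecke used are proved in `H31/CF/Main.lean`.
-/

open NumberField Module Polynomial
open Pool.Agent.H28.QZ
open scoped Nat

namespace Pool.Agent.Results.MP_d2121a_nt.EveryGroup

/-- `L` is the splitting field over `F` of a polynomial `f` of degree `n` and has at least `n ! / 2` automorphisms over `F`; the
family of all `K` with `[L : K] ≤ m` over which at least `(1 - η) n` of the roots of `f` generate `L` is good, and contains almost
all fields with group `G` for every group `G` of order at most `m` -/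
def SplittingFieldPart (m : ℕ) (δ η ε : ℝ) (n : ℕ) : Prop :=
  ∀ (F L : Type) [Field F] [NumberField F] [Field L] [NumberField L] [Algebra F L] [IsGalois F L]
    (f : F[X]) [f.IsSplittingField F L], f.natDegree = n → n ! ≤ 2 * Nat.card Gal(L/F) →
      GoodFamily (GalRep.sgn f) δ (richFields (L := L) f m η) ∧
        AlmostAll m ε (richFields (L := L) f m η)

/-- every extension with Galois group `A_n` has such a family of fields, without the condition on the sign -/
def AlternatingPart (m : ℕ) (δ ε : ℝ) (n : ℕ) : Prop :=
  ∀ (F L : Type) [Field F] [NumberField F] [Field L] [NumberField L] [Algebra F L] [IsGalois F L],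
    Nonempty (Gal(L/F) ≃* alternatingGroup (Fin n)) →
      ∃ 𝒦 : Set (IntermediateField F L), GoodFamily GalRep.inv δ 𝒦 ∧ AlmostAll m ε 𝒦

/-- above every number field `k` there is such an extension `L / F` which is everywhere unramified, `F` totally complex -/
def UnramifiedPart (m : ℕ) (δ ε : ℝ) (n : ℕ) : Prop :=
  ∀ (k : Type) [Field k] [NumberField k],
    ∃ (F L : Type) (_ : Field F) (_ : NumberField F) (_ : Field L) (_ : NumberField L)
      (_ : Algebra k F) (_ : Algebra F L) (_ : IsGalois F L), NumberField.IsTotallyComplex F ∧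
      Algebra.Unramified (𝓞 F) (𝓞 L) ∧ Nonempty (Gal(L/F) ≃* alternatingGroup (Fin n)) ∧
      ∃ 𝒦 : Set (IntermediateField F L), GoodFamily GalRep.inv δ 𝒦 ∧ AlmostAll m ε 𝒦

theorem result (m : ℕ) (δ : ℝ) (hδ : 0 < δ) :
    ∃ η : ℝ, 0 < η ∧ ∀ ε : ℝ, 0 < ε → ∃ N : ℕ, ∀ n : ℕ, N ≤ n →
      SplittingFieldPart m δ η ε n ∧ AlternatingPart m δ ε n ∧ UnramifiedPart m δ ε n := by
  obtain ⟨η, hη, h⟩ := fam_all m hδ
  refine ⟨η, hη, fun ε hε => ?_⟩
  obtain ⟨N, hN, hall⟩ := h ε hε
  refine ⟨N, fun n hn => ⟨fun F L _ _ _ _ _ _ f _ hf hcard => ?_,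
    fun F L _ _ _ _ _ _ he => alt_all hN hall hn F L he, fun k _ _ => ?_⟩⟩
  · exact hall F L f (by omega) (by rw [hf]; exact hcard)
  · obtain ⟨F, L, _, _, _, _, _, _, _, h1, h2, h3⟩ := Pool.Agent.H72.HQ.exists_alt_ext k n
    exact ⟨F, L, inferInstance, inferInstance, inferInstance, inferInstance, inferInstance,
      inferInstance, inferInstance, h1, h2, h3, alt_all hN hall hn F L h3⟩

end Pool.Agent.Results.MP_d2121a_nt.EveryGroup
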