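import Pool.Agent.H8.QT.Out
import Pool.Agent.H16.QA.Fin
import Pool.Agent.H91.LJ.EmbB
import Pool.Agent.H91.LJ.DedB
import Pool.Agent.H91.LJ.AllK

/-!
# MP_d2121a_nt : Artin's holomorphy conjecture over the intermediate fields of extensions with linear Galois groups

`𝕜` is a finite field with `q` elements of characteristic `p`, `Γ` is a group of invertible `N × N` matrices over `𝕜` which
contains all matrices of determinant `1`, `L / F` is a Galois extension of number fields and `π` is a homomorphism from `Γ` onto
`Gal(L/F)` the kernel of which consists of scalar matrices.  So `Gal(L/F)` may be `PSL_N(q)`, `SL_N(q)`, `PGL_N(q)`, `GL_N(q)` or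
any group between them.

`spreadFields p Γ π δ` is the set of all intermediate fields `K` for which there is a number `s ≥ 1`, `3 s < N`, `p + s ≤ N`, with
`2 ^ 22 [L : K] ≤ δ q ^ s` such that every matrix `h` in the class of an element different from `1` of `Gal(L/K)` is `s`-spread:
`h - c` has rank at least `s` for all scalars `c`, and the irreducible factors of the minimal polynomial of `h` have degree at most
`N - s` (this last condition is automatic if `[L : K] + s ≤ N`).  There is no other condition on the group `Gal(L/K)` or on its
representations.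

* Artin's conjecture holds for all representations of the groups `Gal(L/K)`, `K` in this family, quotients of products of these
  L-functions are entire and have a power which is a product of Hecke L-functions, under a condition on degrees and
  one-dimensional characters, and the zeros of one L-function are zeros of the others (`LinearFamily`).
* Small co-degree (`SmallCodegree`): if scalar matrices are mapped to `1`, `3 < N`, `p < N` and `2 ^ 22 [L : K] ≤ δ q`, then `K` is
  in the family if `[L : K] < N`, or if all matrices in `Γ` have determinant `1` and all divisors prime to `p` of `N [L : K]`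
  divide `q - 1`.
* Every subgroup of `S_n` is the group `Gal(L/K)` of some field of the family if `N` is not too small (`GroupsOccur`).
* Dedekind's conjecture holds for `K / F` if all matrices in `Γ` have determinant `1` and `4 s [L : K] ≤ N` (`DedekindLinear`).
* For every `m` and `ε > 0`, if `N` is large and `2 p ≤ N`, then for every group `G` of order at most `m` prime to `p` at least one
  field `K` with `Gal(L/K)` isomorphic to `G` is in the family, and all but a proportion `ε` of these fields
  (`AlmostAllPrime`).

The definitions are in `H91/LJ/Sta.lean` and `H28/QZ/Sta.lean`.  No hypothesis is made anywhere: the theorems of Artin, Brauer and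
Hecke used are proved in `H31/CF/Main.lean`.
-/

open NumberField Module Polynomial Matrix
open Pool.Agent.H7.Artin Pool.Agent.H28.QZ Pool.Agent.H91.LJ
open scoped MatrixGroups

namespace Pool.Agent.Results.MP_d2121a_nt.LinearGroups

theorem result :
    (∀ (p N : ℕ) (𝕜 : Type) [Field 𝕜] [Finite 𝕜] [CharP 𝕜 p] (F L : Type) [Field F] [NumberField F] [Field L]
      [NumberField L] [Algebra F L] [IsGalois F L] (Γ : Subgroup (GL (Fin N) 𝕜)) (π : Γ →* Gal(L/F)),
      p.Prime → IsLinear Γ π →
        (∀ δ : ℝ, 0 < δ → δ ≤ 1 →
          LinearFamily δ (spreadFields p Γ π δ) ∧ SmallCodegree p Γ π δ ∧ GroupsOccur p Γ π δ) ∧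
        DedekindLinear p Γ π) ∧
    ∀ (m : ℕ) (δ ε : ℝ), 0 < δ → 0 < ε → ∃ N₀ : ℕ, ∀ (p N : ℕ) (𝕜 : Type) [Field 𝕜] [Finite 𝕜] [CharP 𝕜 p]
      (F L : Type) [Field F] [NumberField F] [Field L] [NumberField L] [Algebra F L] [IsGalois F L]
      (Γ : Subgroup (GL (Fin N) 𝕜)) (π : Γ →* Gal(L/F)),
      IsLinear Γ π → N₀ ≤ N → 2 * p ≤ N → AlmostAllPrime p m ε (spreadFields p Γ π δ) := by
  refine ⟨fun p N 𝕜 _ _ _ F L _ _ _ _ _ _ Γ π hp hlin => ⟨fun δ h0 h1 =>
    ⟨Pool.Agent.H8.QT.linearFamily hp hlin h0 h1,
      fun hsc hN hpN K hq hK => all_fields hp hlin hsc hN hpN K hq hK,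
      fun n k G hn hk hN hpN hG => occurs_spread Γ π hlin δ n k G hn hk hN hpN hG⟩, ?_⟩,
    fun m δ ε hδ hε => Pool.Agent.H16.QA.almost_all m δ ε hδ hε⟩
  have : Fact p.Prime := ⟨hp⟩
  exact fun hdet K s hs h3 hps h4 hm hspr => ded_fields Γ π hlin hdet K hs h3 hps h4 hm hspr

end Pool.Agent.Results.MP_d2121a_nt.LinearGroups
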