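import Pool.Agent.H72.OD.TTF

/-!
# MP_d2121a_nt : Artin's conjecture and products of Hecke L-functions over the intermediate fields of Galois extensions

`L / F` is a Galois extension of number fields and `K` is any field between `F` and `L`.  The definitions are in `Pool/Agent/H72/OD/TT0.lean` and
`Pool/Agent/H76/IP/Def.lean`.  `Both K ρ`: Artin's conjecture holds for the representation `ρ` of `Gal(L/K)`, and `L(s, ρ)` is a product of Hecke L-functions `L(s, ψ)`,
`ψ : Gal(L/E) → ℂˣ`, `E` between `F` and `L`.  `Power K ρ`: the same for a power of `L(s, ρ)`.  The representations `ρ` need not be monomial; the fields `E` need not contain
`K`.

* `PartJ`.  A class of homomorphisms of groups, closed under composition, products and wreath products, such that `Both K ρ` for all representations `ρ` of `Gal(L/K)` if the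
  inclusion of `Gal(L/K)` in `Gal(L/F)` is in the class (`Built`).

In the other parts `L` is the splitting field of `f ∈ F[X]`, of degree `n`.  `Holds f K ρ`: `Both K ρ` if `Gal(L/F)` is the symmetric group of the roots, or the product of the
symmetric groups of the roots of the irreducible factors of `f`, or the alternating group and two different roots are in `K`; and `Power K ρ` in a more general case (`Factored`),
for example if `Gal(L/F)` contains the product of the alternating groups of the roots of the irreducible factors of `f` and `[L : K] ^ 2 + 1` is smaller than their degrees.

* `PartS`.  `Holds f K ρ` for all `ρ`, if each irreducible factor `p` of `f` satisfies one of these conditions: for every root `x` of `p` there is a tower of fields from `K` to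
  `K(x)` with steps of two kinds (`Step`): steps contained in a solvable Galois extension such that the upper part has a Galois group all of whose subgroups have only monomial
  representations, and Galois steps such that the simple sections of the Galois group are abelian or `A_5` or `GL_3(F_2)`; or the degree over `K` of the field `K_p` of the roots
  of `p` is bounded and many roots of `p` generate `K_p` (`Rich`; any Galois group).
* `PartB`.  Criteria for the existence of such towers.
* `PartA`.  Single representations: dimension two, or at most four (without nonabelian simple groups in the image), or prime dimension, and others (`Listed`, `Scalars`); then it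
  is enough that there are towers with steps of the first kind to a subfield of the fixed field of the kernel of `ρ`.
* `PartC`.  All fields `K` with `[L : K] < 120`, if `n` is large.
* `PartD`.  The same list as in `PartA`, if `Gal(L/F)` is a wreath product `T ≀ S`; the finite group `T` may be arbitrary.
* `PartE`.  Criteria for `Factored`.
* `PartF`.  Rationality of the coefficients of `L(s, ρ)`.
* `PartG`.  Representations in which central elements act faithfully, more general groups `Gal(L/F)`.
* `PartT`.  All finite groups, explicit: `Power K ρ`, if sufficiently many roots of `f` generate `L` over `K`.
* `PartX`.  Every finite group of order at most `n / 2` is `Gal(L/K)` for some `K`.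

No hypothesis is made anywhere: the theorems of Artin, Brauer and Hecke used are proved in `H31/CF/Main.lean`.
-/

open Pool.Agent.H72.TT

namespace Pool.Agent.Results.MP_d2121a_nt.TameTowers

theorem result : PartA ∧ PartB ∧ PartC ∧ PartD ∧ PartE ∧ PartF ∧ PartG ∧ PartJ ∧ PartS ∧ PartT ∧ PartX := allParts'

end Pool.Agent.Results.MP_d2121a_nt.TameTowers
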